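import Pool.Agent.W5h28.PH.Phase

set_option autoImplicit false

/-! Examples of nondegenerate phases: `λ x ^ c y ^ d` and `λ (x ^ p + y ^ p) ^ s`. -/

namespace Pool.Agent.W5h28.PH

open Set

lemma rpow_bd {K N x s : ℝ} (hK : 1 ≤ K) (hN : 0 < N) (h1 : N / K ≤ x) (h2 : x ≤ K * N) :
    K ^ (-|s|) * N ^ s ≤ x ^ s ∧ x ^ s ≤ K ^ |s| * N ^ s := by
  have hK0 : 0 < K := by linarith
  have hx : 0 < x := lt_of_lt_of_le (by positivity) h1
  have h1' : N ≤ K * x := by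
    rw [div_le_iff₀ hK0] at h1
    linarith
  rcases le_or_gt 0 s with hs | hs
  · rw [abs_of_nonneg hs]
    constructor
    · have h3 : N ^ s ≤ (K * x) ^ s := Real.rpow_le_rpow hN.le h1' hs
      rw [Real.mul_rpow hK0.le hx.le] at h3
      rw [Real.rpow_neg hK0.le, inv_mul_le_iff₀ (by positivity)]
      exact h3
    · have h3 : x ^ s ≤ (K * N) ^ s := Real.rpow_le_rpow hx.le h2 hs
      rwa [Real.mul_rpow hK0.le hN.le] at h3
  · rw [abs_of_neg hs, neg_neg]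
    constructor
    · have h3 : (K * N) ^ s ≤ x ^ s := Real.rpow_le_rpow_of_nonpos hx h2 hs.le
      rwa [Real.mul_rpow hK0.le hN.le] at h3
    · have h3 : (K * x) ^ s ≤ N ^ s := Real.rpow_le_rpow_of_nonpos hN h1' hs.le
      rw [Real.mul_rpow hK0.le hx.le] at h3
      rw [Real.rpow_neg hK0.le, inv_mul_eq_div, le_div_iff₀ (by positivity)]
      linarith

/-- the phase condition follows from bounds with any constants -/
lemma Phase.of_bounds {c₁ c₂ c₃ T U V u v : ℝ} {F : ℝ → ℝ → ℝ} (h1 : 0 < c₁) (hU : 0 < U)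
    (hV : 0 < V) (hT : 0 < T) (F₁ F₁₁ F₁₂ F₁₁₂ : ℝ → ℝ → ℝ)
    (h : ∀ x ∈ Icc u (u + U), ∀ y ∈ Icc v (v + V),
      HasDerivAt (fun t => F t y) (F₁ x y) x ∧ HasDerivAt (fun t => F₁ t y) (F₁₁ x y) x ∧
      HasDerivAt (fun t => F₁ x t) (F₁₂ x y) y ∧ HasDerivAt (fun t => F₁₁ x t) (F₁₁₂ x y) y ∧
      c₁ * (T / (U * V)) ≤ |F₁₂ x y| ∧ |F₁₂ x y| ≤ c₂ * (T / (U * V)) ∧
      |F₁₁₂ x y| ≤ c₃ * (T / (U ^ 2 * V)))
    (hc : ∀ y ∈ Icc v (v + V), ContinuousOn (fun t => F₁₁ t y) (Icc u (u + U))) :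
    Phase (1 + 1 / c₁ + |c₂| + |c₃|) T U V u v F := by
  refine ⟨F₁, F₁₁, F₁₂, F₁₁₂, fun x hx y hy => ?_, hc⟩
  obtain ⟨a1, a2, a3, a4, a5, a6, a7⟩ := h x hx y hy
  have hi : 0 < 1 / c₁ := by positivity
  have b2 := abs_nonneg c₂
  have b3 := abs_nonneg c₃
  have d2 := le_abs_self c₂
  have d3 := le_abs_self c₃
  refine ⟨a1, a2, a3, a4, ?_, ?_, ?_⟩
  · refine le_trans ?_ a5
    rw [← div_div, div_right_comm, div_le_iff₀ (by positivity)]
    have : T / (U * V) ≤ c₁ * (T / (U * V)) * (1 / c₁) := by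
      field_simp
      rfl
    have h3 : 0 ≤ c₁ * (T / (U * V)) := by positivity
    nlinarith
  · refine a6.trans ?_
    rw [mul_div_assoc]
    gcongr
    linarith
  · refine a7.trans ?_
    rw [mul_div_assoc]
    gcongr
    linarith

/-- **Monomials.** -/
theorem phase_mono (c d : ℝ) (hc : c ≠ 0) (hd : d ≠ 0) : ∃ C : ℝ, 1 ≤ C ∧
    ∀ U V lam : ℝ, 0 < U → 0 < V → 0 < lam →
      Phase C (lam * U ^ c * V ^ d) U V U V (fun x y => lam * x ^ c * y ^ d) := by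
  set K₁ : ℝ := |c * d| * (2 ^ (-|c - 1|) * 2 ^ (-|d - 1|)) with hK₁
  set K₂ : ℝ := |c * d| * (2 ^ |c - 1| * 2 ^ |d - 1|) with hK₂
  set K₃ : ℝ := |c * (c - 1) * d| * (2 ^ |c - 1 - 1| * 2 ^ |d - 1|) with hK₃
  have hcd : 0 < |c * d| := abs_pos.2 (mul_ne_zero hc hd)
  have hK₁0 : 0 < K₁ := by positivity
  have hK₂0 : 0 < K₂ := by positivity
  refine ⟨1 + 1 / K₁ + |K₂| + |K₃|, ?_, ?_⟩
  · have : 0 < 1 / K₁ := by positivity
    have := abs_nonneg K₂
    have := abs_nonneg K₃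
    linarith
  intro U V lam hU hV hl
  have hT2 : lam * U ^ c * V ^ d / (U * V) = lam * (U ^ (c - 1) * V ^ (d - 1)) := by
    rw [Real.rpow_sub_one hU.ne', Real.rpow_sub_one hV.ne']
    field_simp
  have hT3 : lam * U ^ c * V ^ d / (U ^ 2 * V) = lam * (U ^ (c - 1 - 1) * V ^ (d - 1)) := by
    rw [Real.rpow_sub_one hU.ne', Real.rpow_sub_one hU.ne', Real.rpow_sub_one hV.ne']
    field_simp
  refine Phase.of_bounds (F := fun x y => lam * x ^ c * y ^ d) (c₁ := K₁) (c₂ := K₂) (c₃ := K₃)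
    hK₁0 hU hV (by positivity)
    (fun x y => lam * (c * x ^ (c - 1)) * y ^ d)
    (fun x y => lam * (c * ((c - 1) * x ^ (c - 1 - 1))) * y ^ d)
    (fun x y => lam * (c * x ^ (c - 1)) * (d * y ^ (d - 1)))
    (fun x y => lam * (c * ((c - 1) * x ^ (c - 1 - 1))) * (d * y ^ (d - 1))) ?_ ?_
  · intro x hx y hy
    have hx0 : 0 < x := lt_of_lt_of_le hU hx.1
    have hy0 : 0 < y := lt_of_lt_of_le hV hy.1
    have bd : ∀ N s z : ℝ, 0 < N → z ∈ Icc N (N + N) →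
        (2 : ℝ) ^ (-|s|) * N ^ s ≤ z ^ s ∧ z ^ s ≤ 2 ^ |s| * N ^ s := by
      intro N s z hN hz
      refine rpow_bd (by norm_num) hN ?_ ?_
      · linarith [hz.1, half_le_self hN.le]
      · linarith [hz.2]
    have e0 : |lam * (c * x ^ (c - 1)) * (d * y ^ (d - 1))|
        = |c * d| * (lam * (x ^ (c - 1) * y ^ (d - 1))) := by
      have : lam * (c * x ^ (c - 1)) * (d * y ^ (d - 1))
          = c * d * (lam * (x ^ (c - 1) * y ^ (d - 1))) := by ring
      rw [this, abs_mul, abs_of_nonneg (by positivity : 0 ≤ lam * (x ^ (c - 1) * y ^ (d - 1)))]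
    refine ⟨?_, ?_, ?_, ?_, ?_, ?_, ?_⟩
    · exact ((Real.hasDerivAt_rpow_const (Or.inl hx0.ne')).const_mul lam).mul_const _
    · exact (((Real.hasDerivAt_rpow_const (Or.inl hx0.ne')).const_mul c).const_mul lam).mul_const _
    · exact (Real.hasDerivAt_rpow_const (Or.inl hy0.ne')).const_mul _
    · exact (Real.hasDerivAt_rpow_const (Or.inl hy0.ne')).const_mul _
    · rw [e0, hT2, hK₁]
      have h1 := (bd U (c - 1) x hU hx).1
      have h2 := (bd V (d - 1) y hV hy).1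
      calc |c * d| * (2 ^ (-|c - 1|) * 2 ^ (-|d - 1|)) * (lam * (U ^ (c - 1) * V ^ (d - 1)))
          = |c * d| * (lam * ((2 ^ (-|c - 1|) * U ^ (c - 1)) * (2 ^ (-|d - 1|) * V ^ (d - 1)))) := by
            ring
        _ ≤ _ := by gcongr
    · rw [e0, hT2, hK₂]
      have h1 := (bd U (c - 1) x hU hx).2
      have h2 := (bd V (d - 1) y hV hy).2
      calc |c * d| * (lam * (x ^ (c - 1) * y ^ (d - 1)))
          ≤ |c * d| * (lam * ((2 ^ |c - 1| * U ^ (c - 1)) * (2 ^ |d - 1| * V ^ (d - 1)))) := by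
            gcongr
        _ = _ := by ring
    · have e1 : |lam * (c * ((c - 1) * x ^ (c - 1 - 1))) * (d * y ^ (d - 1))|
          = |c * (c - 1) * d| * (lam * (x ^ (c - 1 - 1) * y ^ (d - 1))) := by
        have : lam * (c * ((c - 1) * x ^ (c - 1 - 1))) * (d * y ^ (d - 1))
            = c * (c - 1) * d * (lam * (x ^ (c - 1 - 1) * y ^ (d - 1))) := by ring
        rw [this, abs_mul,
          abs_of_nonneg (by positivity : 0 ≤ lam * (x ^ (c - 1 - 1) * y ^ (d - 1)))]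
      rw [e1, hT3, hK₃]
      have h1 := (bd U (c - 1 - 1) x hU hx).2
      have h2 := (bd V (d - 1) y hV hy).2
      calc |c * (c - 1) * d| * (lam * (x ^ (c - 1 - 1) * y ^ (d - 1)))
          ≤ |c * (c - 1) * d| * (lam * ((2 ^ |c - 1 - 1| * U ^ (c - 1 - 1))
            * (2 ^ |d - 1| * V ^ (d - 1)))) := by gcongr
        _ = _ := by ring
  · intro y hy
    have : ∀ x ∈ Icc U (U + U), x ≠ 0 := fun x hx => (lt_of_lt_of_le hU hx.1).ne'
    exact ((continuousOn_const.mul (continuousOn_const.mul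
      (continuousOn_id.rpow_const fun x hx => Or.inl (this x hx)))).const_mul lam).mul_const _

/-- **Powers of sums of powers.** -/
theorem phase_sum (p s : ℝ) (hp : p ≠ 0) (hs : s ≠ 0) (hs1 : s ≠ 1) : ∃ C : ℝ, 1 ≤ C ∧
    ∀ N lam : ℝ, 0 < N → 0 < lam →
      Phase C (lam * N ^ (p * s)) N N N N (fun x y => lam * (x ^ p + y ^ p) ^ s) := by
  set M : ℝ := 2 * 2 ^ |p| with hM
  have hM1 : 1 ≤ M := by
    have : (1 : ℝ) ≤ 2 ^ |p| := Real.one_le_rpow (by norm_num) (abs_nonneg _)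
    rw [hM]
    linarith
  have hM0 : 0 < M := by linarith
  set K₁ : ℝ := |s * (s - 1) * p * p| * (M ^ (-|s - 1 - 1|) * 2 ^ (-|p - 1|) * 2 ^ (-|p - 1|)) with hK₁
  set K₂ : ℝ := |s * (s - 1) * p * p| * (M ^ (|s - 1 - 1|) * 2 ^ (|p - 1|) * 2 ^ (|p - 1|)) with hK₂
  set K₃ : ℝ := |s * (s - 1) * p * p * (p - 1)|
      * (M ^ (|s - 1 - 1|) * 2 ^ |p - 1 - 1| * 2 ^ (|p - 1|))
    + |s * (s - 1) * p * p * (p * (s - 1 - 1))|
      * (M ^ (|s - 1 - 1 - 1|) * 2 ^ |p - 1| * 2 ^ |p - 1| * 2 ^ (|p - 1|)) with hK₃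
  have hcd : 0 < |s * (s - 1) * p * p| :=
    abs_pos.2 (mul_ne_zero (mul_ne_zero (mul_ne_zero hs (sub_ne_zero.2 hs1)) hp) hp)
  have hK₁0 : 0 < K₁ := by positivity
  refine ⟨1 + 1 / K₁ + |K₂| + |K₃|, ?_, ?_⟩
  · have : 0 < 1 / K₁ := by positivity
    have := abs_nonneg K₂
    have := abs_nonneg K₃
    linarith
  intro N lam hN hl
  have hT2 : lam * N ^ (p * s) / (N * N)
      = lam * ((N ^ p) ^ (s - 1 - 1) * N ^ (p - 1) * N ^ (p - 1)) := by
    rw [← pow_two, ← Real.rpow_mul hN.le, ← Real.rpow_add hN, ← Real.rpow_add hN, mul_div_assoc,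
      ← Real.rpow_natCast N 2, ← Real.rpow_sub hN]
    congr 2
    push_cast
    ring
  have hT3 : lam * N ^ (p * s) / (N ^ 2 * N)
      = lam * ((N ^ p) ^ (s - 1 - 1) * N ^ (p - 1 - 1) * N ^ (p - 1)) := by
    rw [← pow_succ, ← Real.rpow_mul hN.le, ← Real.rpow_add hN, ← Real.rpow_add hN, mul_div_assoc,
      ← Real.rpow_natCast N (2 + 1), ← Real.rpow_sub hN]
    congr 2
    push_cast
    ring
  have hT3' : lam * N ^ (p * s) / (N ^ 2 * N)
      = lam * ((N ^ p) ^ (s - 1 - 1 - 1) * N ^ (p - 1) * N ^ (p - 1) * N ^ (p - 1)) := by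
    rw [← pow_succ, ← Real.rpow_mul hN.le, ← Real.rpow_add hN, ← Real.rpow_add hN,
      ← Real.rpow_add hN, mul_div_assoc, ← Real.rpow_natCast N (2 + 1), ← Real.rpow_sub hN]
    congr 2
    push_cast
    ring
  have key : ∀ x ∈ Icc N (N + N), ∀ y ∈ Icc N (N + N), 0 < x ∧ 0 < y ∧ 0 < x ^ p + y ^ p ∧
      N ^ p / M ≤ x ^ p + y ^ p ∧ x ^ p + y ^ p ≤ M * N ^ p := by
    intro x hx y hy
    have hx0 : 0 < x := lt_of_lt_of_le hN hx.1
    have hy0 : 0 < y := lt_of_lt_of_le hN hy.1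
    have bd : ∀ z : ℝ, z ∈ Icc N (N + N) → (2 : ℝ) ^ (-|p|) * N ^ p ≤ z ^ p ∧ z ^ p ≤ 2 ^ |p| * N ^ p := by
      intro z hz
      refine rpow_bd (by norm_num) hN ?_ ?_
      · linarith [hz.1, half_le_self hN.le]
      · linarith [hz.2]
    refine ⟨hx0, hy0, by positivity, ?_, ?_⟩
    · have h1 := (bd x hx).1
      have h2 : 0 < y ^ p := by positivity
      have h3 : N ^ p / M ≤ 2 ^ (-|p|) * N ^ p := by
        rw [hM, Real.rpow_neg (by norm_num), div_le_iff₀ (by positivity)]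
        have h4 : ((2 : ℝ) ^ |p|)⁻¹ * N ^ p * (2 * 2 ^ |p|) = 2 * N ^ p := by
          have : (2 : ℝ) ^ |p| ≠ 0 := by positivity
          field_simp
        rw [h4]
        have : 0 < N ^ p := by positivity
        linarith
      linarith
    · have h1 := (bd x hx).2
      have h2 := (bd y hy).2
      rw [hM]
      linarith
  refine Phase.of_bounds (F := fun x y => lam * (x ^ p + y ^ p) ^ s) (c₁ := K₁) (c₂ := K₂)
    (c₃ := K₃) hK₁0 hN hN (by positivity)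
    (fun x y => lam * (p * x ^ (p - 1) * s * (x ^ p + y ^ p) ^ (s - 1)))
    (fun x y => lam * (p * ((p - 1) * x ^ (p - 1 - 1)) * s * (x ^ p + y ^ p) ^ (s - 1)
      + p * x ^ (p - 1) * s * (p * x ^ (p - 1) * (s - 1) * (x ^ p + y ^ p) ^ (s - 1 - 1))))
    (fun x y => lam * (p * x ^ (p - 1) * s
      * (p * y ^ (p - 1) * (s - 1) * (x ^ p + y ^ p) ^ (s - 1 - 1))))
    (fun x y => lam * (p * ((p - 1) * x ^ (p - 1 - 1)) * s
        * (p * y ^ (p - 1) * (s - 1) * (x ^ p + y ^ p) ^ (s - 1 - 1))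
      + p * x ^ (p - 1) * s * (p * x ^ (p - 1) * (s - 1)
        * (p * y ^ (p - 1) * (s - 1 - 1) * (x ^ p + y ^ p) ^ (s - 1 - 1 - 1))))) ?_ ?_
  · intro x hx y hy
    obtain ⟨hx0, hy0, hw0, hw1, hw2⟩ := key x hx y hy
    have bd : ∀ t z : ℝ, z ∈ Icc N (N + N) → (2 : ℝ) ^ (-|t|) * N ^ t ≤ z ^ t ∧ z ^ t ≤ 2 ^ |t| * N ^ t := by
      intro t z hz
      refine rpow_bd (by norm_num) hN ?_ ?_
      · linarith [hz.1, half_le_self hN.le]
      · linarith [hz.2]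
    have bw : ∀ t : ℝ, M ^ (-|t|) * (N ^ p) ^ t ≤ (x ^ p + y ^ p) ^ t ∧
        (x ^ p + y ^ p) ^ t ≤ M ^ |t| * (N ^ p) ^ t := by
      intro t
      exact rpow_bd hM1 (by positivity) hw1 hw2
    have dx : ∀ r : ℝ, HasDerivAt (fun t => t ^ r) (r * x ^ (r - 1)) x := fun r =>
      Real.hasDerivAt_rpow_const (Or.inl hx0.ne')
    have dy : ∀ r : ℝ, HasDerivAt (fun t => t ^ r) (r * y ^ (r - 1)) y := fun r =>
      Real.hasDerivAt_rpow_const (Or.inl hy0.ne')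
    have dwx : ∀ r : ℝ, HasDerivAt (fun t => (t ^ p + y ^ p) ^ r)
        (p * x ^ (p - 1) * r * (x ^ p + y ^ p) ^ (r - 1)) x := fun r =>
      ((dx p).add_const _).rpow_const (Or.inl hw0.ne')
    have dwy : ∀ r : ℝ, HasDerivAt (fun t => (x ^ p + t ^ p) ^ r)
        (p * y ^ (p - 1) * r * (x ^ p + y ^ p) ^ (r - 1)) y := fun r =>
      ((dy p).const_add _).rpow_const (Or.inl hw0.ne')
    refine ⟨?_, ?_, ?_, ?_, ?_, ?_, ?_⟩
    · exact (dwx s).const_mul lam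
    · exact (((((dx (p - 1)).const_mul p).mul_const s).mul (dwx (s - 1)))).const_mul lam
    · exact ((dwy (s - 1)).const_mul _).const_mul lam
    · exact (((dwy (s - 1)).const_mul _).add (((dwy (s - 1 - 1)).const_mul _).const_mul _)).const_mul
        lam
    · have e1 : |lam * (p * x ^ (p - 1) * s
          * (p * y ^ (p - 1) * (s - 1) * (x ^ p + y ^ p) ^ (s - 1 - 1)))|
          = |s * (s - 1) * p * p| * (lam * ((x ^ p + y ^ p) ^ (s - 1 - 1) * x ^ (p - 1)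
            * y ^ (p - 1))) := by
        have : lam * (p * x ^ (p - 1) * s
          * (p * y ^ (p - 1) * (s - 1) * (x ^ p + y ^ p) ^ (s - 1 - 1)))
            = s * (s - 1) * p * p * (lam * ((x ^ p + y ^ p) ^ (s - 1 - 1) * x ^ (p - 1)
            * y ^ (p - 1))) := by ring
        rw [this, abs_mul, abs_of_nonneg (by positivity : 0 ≤ lam * ((x ^ p + y ^ p) ^ (s - 1 - 1)
          * x ^ (p - 1) * y ^ (p - 1)))]
      rw [e1, hT2, hK₁]
      have h1 := (bd (p - 1) x hx).1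
      have h2 := (bd (p - 1) y hy).1
      have h3 := (bw (s - 1 - 1)).1
      calc |s * (s - 1) * p * p| * (M ^ (-|s - 1 - 1|) * 2 ^ (-|p - 1|) * 2 ^ (-|p - 1|))
            * (lam * ((N ^ p) ^ (s - 1 - 1) * N ^ (p - 1) * N ^ (p - 1)))
          = |s * (s - 1) * p * p| * (lam * ((M ^ (-|s - 1 - 1|) * (N ^ p) ^ (s - 1 - 1))
            * (2 ^ (-|p - 1|) * N ^ (p - 1)) * (2 ^ (-|p - 1|) * N ^ (p - 1)))) := by ring
        _ ≤ _ := by gcongr
    · have e1 : |lam * (p * x ^ (p - 1) * s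
          * (p * y ^ (p - 1) * (s - 1) * (x ^ p + y ^ p) ^ (s - 1 - 1)))|
          = |s * (s - 1) * p * p| * (lam * ((x ^ p + y ^ p) ^ (s - 1 - 1) * x ^ (p - 1)
            * y ^ (p - 1))) := by
        have : lam * (p * x ^ (p - 1) * s
          * (p * y ^ (p - 1) * (s - 1) * (x ^ p + y ^ p) ^ (s - 1 - 1)))
            = s * (s - 1) * p * p * (lam * ((x ^ p + y ^ p) ^ (s - 1 - 1) * x ^ (p - 1)
            * y ^ (p - 1))) := by ring
        rw [this, abs_mul, abs_of_nonneg (by positivity : 0 ≤ lam * ((x ^ p + y ^ p) ^ (s - 1 - 1)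
          * x ^ (p - 1) * y ^ (p - 1)))]
      rw [e1, hT2, hK₂]
      have h1 := (bd (p - 1) x hx).2
      have h2 := (bd (p - 1) y hy).2
      have h3 := (bw (s - 1 - 1)).2
      calc |s * (s - 1) * p * p| * (lam * ((x ^ p + y ^ p) ^ (s - 1 - 1) * x ^ (p - 1)
            * y ^ (p - 1)))
          ≤ |s * (s - 1) * p * p| * (lam * ((M ^ (|s - 1 - 1|) * (N ^ p) ^ (s - 1 - 1))
            * (2 ^ (|p - 1|) * N ^ (p - 1)) * (2 ^ (|p - 1|) * N ^ (p - 1)))) := by gcongr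
        _ = _ := by ring
    · have e1 : lam * (p * ((p - 1) * x ^ (p - 1 - 1)) * s
          * (p * y ^ (p - 1) * (s - 1) * (x ^ p + y ^ p) ^ (s - 1 - 1))
        + p * x ^ (p - 1) * s * (p * x ^ (p - 1) * (s - 1)
          * (p * y ^ (p - 1) * (s - 1 - 1) * (x ^ p + y ^ p) ^ (s - 1 - 1 - 1))))
          = s * (s - 1) * p * p * (p - 1) * (lam * ((x ^ p + y ^ p) ^ (s - 1 - 1)
            * x ^ (p - 1 - 1) * y ^ (p - 1)))
          + s * (s - 1) * p * p * (p * (s - 1 - 1)) * (lam * ((x ^ p + y ^ p) ^ (s - 1 - 1 - 1)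
            * x ^ (p - 1) * x ^ (p - 1) * y ^ (p - 1))) := by ring
      rw [e1]
      refine (abs_add_le _ _).trans ?_
      rw [abs_mul _ (lam * ((x ^ p + y ^ p) ^ (s - 1 - 1) * x ^ (p - 1 - 1) * y ^ (p - 1))),
        abs_mul _ (lam * ((x ^ p + y ^ p) ^ (s - 1 - 1 - 1) * x ^ (p - 1) * x ^ (p - 1)
          * y ^ (p - 1))),
        abs_of_nonneg (by positivity : 0 ≤ lam * ((x ^ p + y ^ p) ^ (s - 1 - 1)
            * x ^ (p - 1 - 1) * y ^ (p - 1))),
        abs_of_nonneg (by positivity : 0 ≤ lam * ((x ^ p + y ^ p) ^ (s - 1 - 1 - 1)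
            * x ^ (p - 1) * x ^ (p - 1) * y ^ (p - 1))), hK₃, add_mul]
      have h1 := (bd (p - 1) x hx).2
      have h1' := (bd (p - 1 - 1) x hx).2
      have h2 := (bd (p - 1) y hy).2
      have h3 := (bw (s - 1 - 1)).2
      have h4 := (bw (s - 1 - 1 - 1)).2
      refine add_le_add ?_ ?_
      · rw [hT3]
        calc |s * (s - 1) * p * p * (p - 1)| * (lam * ((x ^ p + y ^ p) ^ (s - 1 - 1)
              * x ^ (p - 1 - 1) * y ^ (p - 1)))
            ≤ |s * (s - 1) * p * p * (p - 1)| * (lam * ((M ^ (|s - 1 - 1|)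
              * (N ^ p) ^ (s - 1 - 1)) * (2 ^ (|p - 1 - 1|) * N ^ (p - 1 - 1))
              * (2 ^ (|p - 1|) * N ^ (p - 1)))) := by gcongr
          _ = _ := by ring
      · rw [hT3']
        calc |s * (s - 1) * p * p * (p * (s - 1 - 1))| * (lam * ((x ^ p + y ^ p) ^ (s - 1 - 1 - 1)
              * x ^ (p - 1) * x ^ (p - 1) * y ^ (p - 1)))
            ≤ |s * (s - 1) * p * p * (p * (s - 1 - 1))| * (lam * ((M ^ (|s - 1 - 1 - 1|)
              * (N ^ p) ^ (s - 1 - 1 - 1)) * (2 ^ (|p - 1|) * N ^ (p - 1))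
              * (2 ^ (|p - 1|) * N ^ (p - 1)) * (2 ^ (|p - 1|) * N ^ (p - 1)))) := by gcongr
          _ = _ := by ring
  · intro y hy
    have hx0 : ∀ x ∈ Icc N (N + N), x ≠ 0 := fun x hx => (key x hx y hy).1.ne'
    have hw0 : ∀ x ∈ Icc N (N + N), x ^ p + y ^ p ≠ 0 := fun x hx => (key x hx y hy).2.2.1.ne'
    have cx : ∀ r : ℝ, ContinuousOn (fun t : ℝ => t ^ r) (Icc N (N + N)) := fun r =>
      continuousOn_id.rpow_const fun x hx => Or.inl (hx0 x hx)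
    have cw : ∀ r : ℝ, ContinuousOn (fun t : ℝ => (t ^ p + y ^ p) ^ r) (Icc N (N + N)) := fun r =>
      ((cx p).add continuousOn_const).rpow_const fun x hx => Or.inl (hw0 x hx)
    refine ContinuousOn.const_mul (ContinuousOn.add ?_ ?_) lam
    · exact ((continuousOn_const.mul ((cx _).const_mul _)).mul_const s).mul (cw _)
    · exact ((((cx _).const_mul _).mul_const s)).mul
        ((((cx _).const_mul _).mul_const _).mul (cw _))

end Pool.Agent.W5h28.PH
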