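import Pool.Agent.W5h28.PH.Main
import Pool.Agent.W5h28.PH.Fam

set_option autoImplicit false

/-! The main theorem for all `ε`, and the sharpness of the condition. -/

namespace Pool.Agent.W5h28.PH

open Finset Filter
open Pool.Agent.W147.PS (ff ff_compare ev_pow)

/-- a finite subset of `[u, u + N]` whose elements have mutual distances at least `1` -/
def Separated (u N : ℝ) (A : Finset ℝ) : Prop :=
  (∀ x ∈ A, u ≤ x ∧ x ≤ u + N) ∧ ∀ x ∈ A, ∀ x' ∈ A, x ≠ x' → 1 ≤ |x - x'|

open Classical in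
/-- all `ε`, and the thresholds in one condition -/
theorem general (ε : ℝ) (hε : 0 < ε) :
    ∃ κ : ℝ, 0 < κ ∧ ∀ C : ℝ, 1 ≤ C → ∀ᶠ Z : ℝ in atTop,
    ∀ T U V u v : ℝ, 0 < T → 1 ≤ U → 1 ≤ V → V ≤ Z →
    ∀ F : ℝ → ℝ → ℝ, Phase C T U V u v F →
    ∀ A B : Finset ℝ, Separated u U A → Separated v V B →
    Z ^ ε * max (max U V) (max T (U * V / T)) ≤ (A.card : ℝ) * B.card →
    ∀ f g : ℝ → ℝ, (∀ a ∈ A, ∀ b ∈ B, Z ^ ε ≤ F a b + f a + g b) →
    (A.card : ℝ) * B.card * Z ^ (-ε) ≤ (((A ×ˢ B).filter fun p : ℝ × ℝ =>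
      PrimeFree (F p.1 p.2 + f p.1 + g p.2) (κ * ff Z)).card : ℝ) := by
  obtain ⟨κ, hκ, h⟩ := main (min ε 1) (lt_min hε one_pos) (min_le_right _ _)
  refine ⟨κ, hκ, fun C hC => ?_⟩
  filter_upwards [h C hC, eventually_ge_atTop (1 : ℝ)] with Z hZ hZ1
  intro T U V u v hT hU hV hVZ F hF A B hA hB hcard f g hfg
  have hZ0 : 0 < Z := by linarith
  have hle : Z ^ min ε 1 ≤ Z ^ ε := Real.rpow_le_rpow_of_exponent_le hZ1 (min_le_left _ _)
  have hmx : ∀ x : ℝ, 0 < x → x ≤ max (max U V) (max T (U * V / T)) →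
      Z ^ min ε 1 * x ≤ (A.card : ℝ) * B.card := by
    intro x hx hx2
    refine le_trans ?_ hcard
    exact mul_le_mul hle hx2 hx.le (by positivity)
  have key := hZ T U V u v hT hU hV hVZ F hF A B hA.1 hB.1 hA.2 hB.2
    (hmx U (by linarith) ((le_max_left _ _).trans (le_max_left _ _)))
    (hmx V (by linarith) ((le_max_right _ _).trans (le_max_left _ _)))
    (hmx T hT ((le_max_left _ _).trans (le_max_right _ _)))
    (hmx (U * V / T) (by positivity) ((le_max_right _ _).trans (le_max_right _ _))) f g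
    (fun x hx y hy => hle.trans (hfg x hx y hy))
    ((A ×ˢ B).filter fun p : ℝ × ℝ => PrimeFree (F p.1 p.2 + f p.1 + g p.2) (κ * ff Z))
    (filter_subset _ _) (by
      intro x hx y hy hpf
      rw [mem_filter, mem_product]
      exact ⟨⟨hx, hy⟩, hpf⟩)
  refine le_trans ?_ key
  have h2 : Z ^ (-ε) ≤ Z ^ (-min ε 1) :=
    Real.rpow_le_rpow_of_exponent_le hZ1 (neg_le_neg (min_le_left _ _))
  gcongr

/-- the points `u, u + 1, …, u + n` -/
noncomputable def pts (u : ℝ) (n : ℕ) : Finset ℝ := (range (n + 1)).image fun i : ℕ => u + i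

lemma pts_card (u : ℝ) (n : ℕ) : (pts u n).card = n + 1 := by
  rw [pts, card_image_of_injective, card_range]
  intro a b h
  have : (a : ℝ) = b := by simpa using h
  exact_mod_cast this

lemma pts_sep {u N : ℝ} {n : ℕ} (hn : (n : ℝ) ≤ N) : Separated u N (pts u n) := by
  constructor
  · intro x hx
    obtain ⟨i, hi, rfl⟩ := mem_image.1 hx
    rw [mem_range] at hi
    have h1 : (i : ℝ) ≤ n := by exact_mod_cast (by omega : i ≤ n)
    have h2 : (0 : ℝ) ≤ i := Nat.cast_nonneg i
    constructor <;> linarith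
  · intro x hx x' hx' hne
    obtain ⟨i, -, rfl⟩ := mem_image.1 hx
    obtain ⟨j, -, rfl⟩ := mem_image.1 hx'
    have hij : (i : ℤ) - j ≠ 0 := fun h => hne (by
      have : i = j := by omega
      rw [this])
    have h1 : (1 : ℤ) ≤ |(i : ℤ) - j| := Int.one_le_abs hij
    have h2 : u + i - (u + j) = (((i : ℤ) - j : ℤ) : ℝ) := by
      push_cast
      ring
    rw [h2]
    exact_mod_cast h1

lemma pts_zero {u x : ℝ} (hx : x ∈ pts u 0) : x = u := by
  obtain ⟨i, hi, rfl⟩ := mem_image.1 hx
  rw [mem_range] at hi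
  have : i = 0 := by omega
  rw [this]
  simp

/-- **Sharpness.** -/
theorem sharp {C T U V u v : ℝ} {F : ℝ → ℝ → ℝ} (hC : 1 ≤ C) (hU : 0 < U) (hV : 0 < V)
    (hT : 1 ≤ T) (hF : Phase C T U V u v F) : ∃ A B : Finset ℝ,
      Separated u U A ∧ Separated v V B ∧
      max (max U V) (U * V / (8 * C * T)) ≤ (A.card : ℝ) * B.card ∧
      ∀ r : ℝ, ∃ f g : ℝ → ℝ, ∀ a ∈ A, ∀ b ∈ B,
        r ≤ F a b + f a + g b ∧ F a b + f a + g b ≤ r + 1 / 4 := by
  have hC0 : 0 < C := by linarith
  have hT0 : 0 < T := by linarith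
  rcases le_total (max U V) (U * V / (8 * C * T)) with hle | hle
  · rw [max_eq_right hle]
    set s : ℝ := Real.sqrt (1 / (8 * C * T)) with hs
    have hs0 : 0 ≤ s := Real.sqrt_nonneg _
    have hss : s * s = 1 / (8 * C * T) := Real.mul_self_sqrt (by positivity)
    have hs1 : s ≤ 1 := by
      rw [hs, Real.sqrt_le_left zero_le_one, one_pow, div_le_one (by positivity)]
      nlinarith
    have hsU : s * U ≤ U := by
      calc s * U ≤ 1 * U := by gcongr
        _ = U := one_mul _
    have hsV : s * V ≤ V := by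
      calc s * V ≤ 1 * V := by gcongr
        _ = V := one_mul _
    have hsU0 : 0 ≤ s * U := by positivity
    have hsV0 : 0 ≤ s * V := by positivity
    refine ⟨pts u ⌊s * U⌋₊, pts v ⌊s * V⌋₊, pts_sep ((Nat.floor_le hsU0).trans hsU),
      pts_sep ((Nat.floor_le hsV0).trans hsV), ?_, ?_⟩
    · rw [pts_card, pts_card]
      push_cast
      have h1 := (Nat.lt_floor_add_one (s * U)).le
      have h2 := (Nat.lt_floor_add_one (s * V)).le
      calc U * V / (8 * C * T) = (s * U) * (s * V) := by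
            have : (s * U) * (s * V) = s * s * (U * V) := by ring
            rw [this, hss]
            ring
        _ ≤ _ := by gcongr
    · intro r
      refine ⟨fun x => r + 1 / 8 + F u v - F x v, fun y => - F u y, ?_⟩
      intro x hx y hy
      have key : ∀ w N z : ℝ, 0 ≤ s * N → s * N ≤ N → z ∈ pts w ⌊s * N⌋₊ →
          z ∈ Set.Icc w (w + N) ∧ |z - w| ≤ s * N := by
        intro w N z hN hN2 hz
        have h0 := (pts_sep (u := w) ((Nat.floor_le hN).trans hN2)).1 z hz
        refine ⟨h0, ?_⟩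
        obtain ⟨i, hi, rfl⟩ := mem_image.1 hz
        rw [mem_range] at hi
        have h1 : (i : ℝ) ≤ ⌊s * N⌋₊ := by exact_mod_cast (by omega : i ≤ ⌊s * N⌋₊)
        have h2 := Nat.floor_le hN
        rw [add_sub_cancel_left, abs_of_nonneg (Nat.cast_nonneg i)]
        linarith
      obtain ⟨hx1, hx2⟩ := key u U x hsU0 hsU hx
      obtain ⟨hy1, hy2⟩ := key v V y hsV0 hsV hy
      have hu : u ∈ Set.Icc u (u + U) := ⟨le_rfl, by linarith⟩
      have hv : v ∈ Set.Icc v (v + V) := ⟨le_rfl, by linarith⟩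
      obtain ⟨D', D'', hD, -⟩ := phase_diff hF hy1 hv
      obtain ⟨t, ht, h1⟩ := mvt_abs (g := fun t => F t y - F t v) (g' := D')
        (fun t ht => (hD t ht).1) hx1 hu
      have h2 := (hD t ht).2.2.2.1
      have h3 : |(F x y - F x v) - (F u y - F u v)| ≤ 1 / 8 := by
        calc _ = |D' t| * |x - u| := h1
          _ ≤ C * T / (U * V) * |y - v| * |x - u| := by gcongr
          _ ≤ C * T / (U * V) * (s * V) * (s * U) := by gcongr
          _ = C * T * (s * s) := by field_simp
          _ = 1 / 8 := by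
            rw [hss]
            field_simp
      rw [abs_le] at h3
      constructor <;> linarith [h3.1, h3.2]
  · rw [max_eq_left hle]
    rcases le_total U V with hUV | hUV
    · rw [max_eq_right hUV]
      refine ⟨pts u 0, pts v ⌊V⌋₊, pts_sep (by push_cast; exact hU.le),
        pts_sep (Nat.floor_le hV.le), ?_, ?_⟩
      · rw [pts_card, pts_card]
        push_cast
        linarith [Nat.lt_floor_add_one V]
      · intro r
        refine ⟨fun _ => 0, fun y => r - F u y, ?_⟩
        intro x hx y hy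
        rw [pts_zero hx]
        constructor <;> linarith
    · rw [max_eq_left hUV]
      refine ⟨pts u ⌊U⌋₊, pts v 0, pts_sep (Nat.floor_le hU.le),
        pts_sep (by push_cast; exact hV.le), ?_, ?_⟩
      · rw [pts_card, pts_card]
        push_cast
        linarith [Nat.lt_floor_add_one U]
      · intro r
        refine ⟨fun x => r - F x v, fun _ => 0, ?_⟩
        intro x hx y hy
        rw [pts_zero hy]
        constructor <;> linarith

end Pool.Agent.W5h28.PH
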