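import Pool.Agent.W5h28.PH.Phase
import Pool.Agent.TH915.PW.Scaled

set_option autoImplicit false

/-! Nondegenerate phases on arbitrary separated sets and prime gaps of record length. -/

namespace Pool.Agent.W5h28.PH

open Finset Filter
open Pool.Agent.H469R2.NK (e norm_e e_add conj_e)
open Pool.Agent.W147.PS (ff ff_compare ev_pow)

/-- no prime is at distance at most `d` from `x` -/
def PrimeFree (x d : ℝ) : Prop := ∀ q : ℕ, q.Prime → d < |(q : ℝ) - x|

/-- The criterion of the starting library, with many members. -/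
theorem crit_many (η : ℝ) (h0 : 0 < η) (h1 : η ≤ 1) : ∃ κ : ℝ, 0 < κ ∧ ∀ᶠ M : ℝ in atTop,
    ∀ (ι : Type) (s : Finset ι) (a : ι → ℝ), s.Nonempty → (∀ i ∈ s, M ^ η ≤ a i) →
    (∀ q h : ℕ, 1 ≤ q → (q : ℝ) ≤ M ^ η → 1 ≤ h → (h : ℝ) ≤ M ^ (4 * η) →
      ‖∑ i ∈ s, e ((h : ℝ) / q * a i)‖ ≤ s.card * (1 / 4 * M ^ (-(4 * η)))) →
    ∀ G : Finset ι, G ⊆ s → (∀ i ∈ s, PrimeFree (a i) (κ * ff M) → i ∈ G) →
      (s.card : ℝ) * (1 / 4 * M ^ (-(4 * η))) ≤ G.card := by
  classical
  obtain ⟨κ, hκ, hc⟩ := Pool.Agent.TH915.PW.crit_scaled η h0 h1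
  refine ⟨κ, hκ, ?_⟩
  filter_upwards [hc, eventually_ge_atTop (1 : ℝ)] with M hM hM1
  intro ι s a hs ha hE G hG hgood
  have hM0 : 0 < M := by linarith
  by_contra hcon
  push Not at hcon
  set w : ℝ := M ^ (-(4 * η)) with hw
  have hw0 : 0 < w := by positivity
  have hw1 : w ≤ 1 := Real.rpow_le_one_of_one_le_of_nonpos hM1 (by linarith)
  have hscard : (0 : ℝ) < s.card := by exact_mod_cast hs.card_pos
  have hcard : ((s \ G).card : ℝ) = s.card - G.card := by
    rw [card_sdiff_of_subset hG, Nat.cast_sub (card_le_card hG)]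
  have h34 : 3 / 4 * (s.card : ℝ) ≤ ((s \ G).card : ℝ) := by
    rw [hcard]
    have : (s.card : ℝ) * (1 / 4 * w) ≤ s.card * (1 / 4 * 1) := by gcongr
    linarith
  have hne : (s \ G).Nonempty := by
    rw [← card_pos]
    have : (0 : ℝ) < ((s \ G).card : ℝ) := by linarith
    exact_mod_cast this
  obtain ⟨i, hi, hi2⟩ := hM ι (s \ G) a hne (fun i hi => ha i (Finset.mem_sdiff.1 hi).1) (by
    intro q h hq hqM hh hhM
    have h5 := hE q h hq hqM hh hhM
    have h6 : ∑ i ∈ s \ G, e ((h : ℝ) / q * a i)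
        = ∑ i ∈ s, e ((h : ℝ) / q * a i) - ∑ i ∈ G, e ((h : ℝ) / q * a i) := by
      rw [← sum_sdiff hG]
      ring
    rw [h6]
    have h7 : ‖∑ i ∈ G, e ((h : ℝ) / q * a i)‖ ≤ G.card := by
      refine (norm_sum_le _ _).trans ?_
      rw [sum_congr rfl fun i _ => norm_e _, sum_const, nsmul_eq_mul, mul_one]
    refine (norm_sub_le _ _).trans ?_
    have h8 : (3 / 4 * (s.card : ℝ)) * w ≤ ((s \ G).card : ℝ) * w := by gcongr
    have h9 : 0 ≤ (s.card : ℝ) * w := by positivity
    linarith)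
  exact (Finset.mem_sdiff.1 hi).2 (hgood i (Finset.mem_sdiff.1 hi).1 hi2)

set_option maxHeartbeats 4000000 in
theorem main (ε : ℝ) (hε : 0 < ε) (hε1 : ε ≤ 1) :
    ∃ κ : ℝ, 0 < κ ∧ ∀ C : ℝ, 1 ≤ C → ∀ᶠ Z : ℝ in atTop,
    ∀ T U V u v : ℝ, 0 < T → 1 ≤ U → 1 ≤ V → V ≤ Z →
    ∀ F : ℝ → ℝ → ℝ, Phase C T U V u v F →
    ∀ A B : Finset ℝ, (∀ x ∈ A, x ∈ Set.Icc u (u + U)) → (∀ y ∈ B, y ∈ Set.Icc v (v + V)) →
    (∀ x ∈ A, ∀ x' ∈ A, x ≠ x' → 1 ≤ |x - x'|) →
    (∀ y ∈ B, ∀ y' ∈ B, y ≠ y' → 1 ≤ |y - y'|) →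
    Z ^ ε * U ≤ (A.card : ℝ) * B.card → Z ^ ε * V ≤ (A.card : ℝ) * B.card →
    Z ^ ε * T ≤ (A.card : ℝ) * B.card → Z ^ ε * (U * V / T) ≤ (A.card : ℝ) * B.card →
    ∀ f g : ℝ → ℝ, (∀ x ∈ A, ∀ y ∈ B, Z ^ ε ≤ F x y + f x + g y) →
    ∀ G : Finset (ℝ × ℝ), G ⊆ A ×ˢ B →
      (∀ x ∈ A, ∀ y ∈ B, PrimeFree (F x y + f x + g y) (κ * ff Z) → (x, y) ∈ G) →
      (A.card : ℝ) * B.card * Z ^ (-ε) ≤ G.card := by
  classical
  set η : ℝ := ε / 100 with hη
  have hη0 : 0 < η := by positivity
  obtain ⟨κ, hκ, hc⟩ := crit_many η hη0 (by rw [hη]; linarith)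
  refine ⟨κ, hκ, fun C hC => ?_⟩
  have hC0 : 0 < C := by linarith
  filter_upwards [hc, eventually_ge_atTop (2 : ℝ),
    ev_pow (-(5 * η)) (-(4 * η)) (8 * (1 + 8 * C)) (by linarith),
    ev_pow (16 * η) (96 * η) (2 * (5 + 40 * C ^ 3)) (by nlinarith),
    ev_pow (-ε) (-(4 * η)) 4 (by rw [hη]; linarith),
    (isLittleO_log_rpow_atTop hη0).bound (show (0 : ℝ) < 1 / 8 by norm_num),
    (tendsto_rpow_atTop hη0).eventually_ge_atTop 12] with Z hcrit hZ2 hZτ hZm hZε hZlog hZη
  intro T U V u v hT hU hV hVZ F hF A B hA hB hsA hsB hc1 hc2 hc3 hc4 f g hfg G hG hgood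
  have hZ0 : 0 < Z := by linarith
  have hZ1 : 1 ≤ Z := by linarith
  have hU0 : 0 < U := by linarith
  have hV0 : 0 < V := by linarith
  set P : ℝ := (A.card : ℝ) * B.card with hP
  have hZε0 : 0 < Z ^ ε := by positivity
  have hP0 : 0 < P := lt_of_lt_of_le (by positivity) hc1
  have hkey := hcrit (ℝ × ℝ) (A ×ˢ B) (fun i => F i.1 i.2 + f i.1 + g i.2) (by
      rw [← card_pos, card_product]
      have : (0 : ℝ) < ((A.card * B.card : ℕ) : ℝ) := by push_cast; exact hP0
      exact_mod_cast this) (by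
      intro i hi
      obtain ⟨h1, h2⟩ := mem_product.1 hi
      refine le_trans ?_ (hfg i.1 h1 i.2 h2)
      apply Real.rpow_le_rpow_of_exponent_le hZ1
      rw [hη]
      linarith) (by
      intro q h hq hqZ hh hhZ
      set θ : ℝ := (h : ℝ) / q with hθ
      have hq0 : (0 : ℝ) < q := by exact_mod_cast hq
      have hh0 : (0 : ℝ) < h := by exact_mod_cast hh
      have hh1 : (1 : ℝ) ≤ h := by exact_mod_cast hh
      have hq1 : (1 : ℝ) ≤ q := by exact_mod_cast hq
      have hθ0 : 0 < θ := by positivity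
      have hθu : θ ≤ Z ^ (4 * η) := by
        rw [hθ]
        exact (div_le_self hh0.le hq1).trans hhZ
      have hθi : 1 / θ ≤ Z ^ η := by
        rw [hθ, one_div_div]
        exact (div_le_self hq0.le hh1).trans hqZ
      set τ : ℝ := Z ^ (-(5 * η)) with hτ
      set δ : ℝ := min (1 / 4) (U * Z ^ (-(9 * η)) / T) with hδ
      have hτ0 : 0 < τ := by positivity
      have hδ0 : 0 < δ := by
        rw [hδ]
        exact lt_min (by norm_num) (by positivity)
      have hδ1 : δ < 1 / 2 := by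
        have : δ ≤ 1 / 4 := min_le_left _ _
        linarith
      have hcore := bil hC hU hV hT hF hθ0 hδ0 hδ1 hτ0 hA hB hsA hsB f g
      rw [sum_product, card_product]
      refine hcore.trans ?_
      push_cast
      rw [← hP]
      have hpi : Real.pi ≤ 4 := Real.pi_le_four
      have hpi0 := Real.pi_pos
      -- first part
      have h1 : τ + 2 * Real.pi * (θ * (C * T / U * δ)) ≤ 1 / 8 * Z ^ (-(4 * η)) := by
        have h2 : θ * (C * T / U * δ) ≤ C * τ := by
          have h3 : δ ≤ U * Z ^ (-(9 * η)) / T := min_le_right _ _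
          calc θ * (C * T / U * δ)
              ≤ Z ^ (4 * η) * (C * T / U * (U * Z ^ (-(9 * η)) / T)) := by gcongr
            _ = C * (Z ^ (4 * η) * Z ^ (-(9 * η))) := by
              field_simp
            _ = C * τ := by
              rw [← Real.rpow_add hZ0, hτ]
              congr 2
              ring
        have h3 : 2 * Real.pi * (θ * (C * T / U * δ)) ≤ 8 * (C * τ) := by
          have h4 : 0 ≤ θ * (C * T / U * δ) := by positivity
          calc 2 * Real.pi * (θ * (C * T / U * δ)) ≤ 2 * 4 * (C * τ) := by gcongr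
            _ = 8 * (C * τ) := by ring
        have h4 : 8 * (τ + 8 * (C * τ)) ≤ Z ^ (-(4 * η)) := by
          refine le_trans (le_of_eq ?_) hZτ
          ring
        linarith
      -- second part
      have h2 : (U + 8 * C ^ 3 * (U * V) * (1 + Real.log (V + 2)) / (θ * T)) / (4 * τ * δ)
          ≤ 1 / 8 * (P * Z ^ (-(4 * η))) := by
        have h4 : 1 + Real.log (V + 2) ≤ Z ^ η := by
          have h5 : Real.log (V + 2) ≤ Real.log (Z ^ 3 * 2) := by
            apply Real.log_le_log (by linarith)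
            nlinarith [sq_nonneg (Z - 2), mul_pos hZ0 hZ0]
          have h6 : Real.log (Z ^ 3 * 2) = 3 * Real.log Z + Real.log 2 := by
            rw [Real.log_mul (by positivity) (by norm_num), Real.log_pow]
            norm_num
          have h7 := Real.log_two_lt_d9
          rw [Real.norm_eq_abs, Real.norm_eq_abs, abs_of_nonneg (Real.log_nonneg hZ1),
            abs_of_nonneg (by positivity)] at hZlog
          linarith
        have h4' : 0 ≤ 1 + Real.log (V + 2) := by
          have := Real.log_nonneg (by linarith : (1 : ℝ) ≤ V + 2)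
          linarith
        set W : ℝ := Z ^ η with hW
        have hW1 : 1 ≤ W := by linarith
        have hW0 : 0 < W := by linarith
        have pw : ∀ k : ℕ, W ^ k = Z ^ ((k : ℝ) * η) := by
          intro k
          rw [hW, ← Real.rpow_natCast, ← Real.rpow_mul hZ0.le, mul_comm]
        -- the two pieces
        have k1 : U + 8 * C ^ 3 * (U * V) * (1 + Real.log (V + 2)) / (θ * T)
            ≤ U + 8 * C ^ 3 * (U * V / T) * W ^ 2 := by
          have : 8 * C ^ 3 * (U * V) * (1 + Real.log (V + 2)) / (θ * T)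
              = 8 * C ^ 3 * (U * V / T) * ((1 + Real.log (V + 2)) * (1 / θ)) := by
            field_simp
          rw [this]
          have h5 : (1 + Real.log (V + 2)) * (1 / θ) ≤ W * W :=
            mul_le_mul h4 hθi (by positivity) hW0.le
          have h6 : 8 * C ^ 3 * (U * V / T) * ((1 + Real.log (V + 2)) * (1 / θ))
              ≤ 8 * C ^ 3 * (U * V / T) * (W * W) := by gcongr
          calc _ ≤ U + 8 * C ^ 3 * (U * V / T) * (W * W) := by linarith
            _ = _ := by ring
        have h9η : Z ^ (-(9 * η)) = 1 / W ^ 9 := by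
          rw [pw, Real.rpow_neg hZ0.le, one_div]
          norm_num
        have k2 : 1 / δ ≤ 4 + T / U * W ^ 9 := by
          rw [hδ]
          rcases min_choice (1 / 4 : ℝ) (U * Z ^ (-(9 * η)) / T) with h | h
          · rw [h]
            have : 0 ≤ T / U * W ^ 9 := by positivity
            norm_num
            exact this
          · rw [h, h9η]
            have : 1 / (U * (1 / W ^ 9) / T) = T / U * W ^ 9 := by
              field_simp
            rw [this]
            linarith
        have k3 : 1 / τ = W ^ 5 := by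
          rw [hτ, pw, Real.rpow_neg hZ0.le, one_div, inv_inv]
          norm_num
        -- the size of the product of the sets
        set R : ℝ := P / W ^ 100 with hR
        have hWε : W ^ 100 = Z ^ ε := by
          rw [pw]
          congr 1
          rw [hη]
          push_cast
          ring
        have hR0 : 0 < R := by positivity
        have rr : ∀ x : ℝ, Z ^ ε * x ≤ P → x ≤ R := by
          intro x hx
          rw [hR, le_div_iff₀ (by positivity), hWε]
          linarith
        have r1 := rr _ hc1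
        have r2 := rr _ hc2
        have r3 := rr _ hc3
        have r4 := rr _ hc4
        have k4 : (U + 8 * C ^ 3 * (U * V / T) * W ^ 2) * (4 + T / U * W ^ 9)
            ≤ R * W ^ 11 * (5 + 40 * C ^ 3) := by
          have e1 : (U + 8 * C ^ 3 * (U * V / T) * W ^ 2) * (4 + T / U * W ^ 9)
              = 4 * U + T * W ^ 9 + 32 * C ^ 3 * (U * V / T) * W ^ 2
                + 8 * C ^ 3 * V * W ^ 11 := by
            field_simp
            ring
          rw [e1]
          have w1 : 1 ≤ W ^ 11 := one_le_pow₀ hW1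
          have w2 : W ^ 2 ≤ W ^ 11 := pow_le_pow_right₀ hW1 (by norm_num)
          have w3 : W ^ 9 ≤ W ^ 11 := pow_le_pow_right₀ hW1 (by norm_num)
          have q1 : 4 * U ≤ 4 * R * W ^ 11 :=
            le_trans (by linarith) (le_mul_of_one_le_right (by positivity : 0 ≤ 4 * R) w1)
          have q2 : T * W ^ 9 ≤ R * W ^ 11 := by gcongr
          have q3 : 32 * C ^ 3 * (U * V / T) * W ^ 2 ≤ 32 * C ^ 3 * R * W ^ 11 := by gcongr
          have q4 : 8 * C ^ 3 * V * W ^ 11 ≤ 8 * C ^ 3 * R * W ^ 11 := by gcongr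
          calc 4 * U + T * W ^ 9 + 32 * C ^ 3 * (U * V / T) * W ^ 2 + 8 * C ^ 3 * V * W ^ 11
              ≤ 4 * R * W ^ 11 + R * W ^ 11 + 32 * C ^ 3 * R * W ^ 11
                + 8 * C ^ 3 * R * W ^ 11 := add_le_add (add_le_add (add_le_add q1 q2) q3) q4
            _ = _ := by ring
        have k5 : (U + 8 * C ^ 3 * (U * V) * (1 + Real.log (V + 2)) / (θ * T)) / (4 * τ * δ)
            = 1 / 4 * (1 / τ) * ((U + 8 * C ^ 3 * (U * V) * (1 + Real.log (V + 2)) / (θ * T))
              * (1 / δ)) := by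
          field_simp
        rw [k5, k3]
        have k6 : (U + 8 * C ^ 3 * (U * V) * (1 + Real.log (V + 2)) / (θ * T)) * (1 / δ)
            ≤ R * W ^ 11 * (5 + 40 * C ^ 3) := by
          refine le_trans ?_ k4
          refine mul_le_mul k1 k2 (by positivity) (by positivity)
        have k7 : 1 / 4 * W ^ 5 * ((U + 8 * C ^ 3 * (U * V) * (1 + Real.log (V + 2)) / (θ * T))
              * (1 / δ)) ≤ 1 / 4 * W ^ 5 * (R * W ^ 11 * (5 + 40 * C ^ 3)) := by gcongr
        refine k7.trans ?_
        have e3 : Z ^ (-(4 * η)) = 1 / W ^ 4 := by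
          rw [pw, Real.rpow_neg hZ0.le, one_div]
          norm_num
        have e4 : 2 * (5 + 40 * C ^ 3) * W ^ 16 ≤ W ^ 96 := by
          rw [pw, pw]
          exact_mod_cast hZm
        rw [e3, hR]
        have e5 : 1 / 4 * W ^ 5 * (P / W ^ 100 * W ^ 11 * (5 + 40 * C ^ 3))
            = P / W ^ 100 / 8 * (2 * (5 + 40 * C ^ 3) * W ^ 16) := by ring
        have e6 : 1 / 8 * (P * (1 / W ^ 4)) = P / W ^ 100 / 8 * W ^ 96 := by
          field_simp
        rw [e5, e6]
        gcongr
      have h3 : P * (τ + 2 * Real.pi * (θ * (C * T / U * δ))) ≤ P * (1 / 8 * Z ^ (-(4 * η))) :=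
        mul_le_mul_of_nonneg_left h1 hP0.le
      linarith) G hG (by
      intro i hi hpf
      obtain ⟨h1, h2⟩ := mem_product.1 hi
      exact hgood i.1 h1 i.2 h2 hpf)
  rw [card_product] at hkey
  push_cast at hkey
  rw [← hP] at hkey
  refine le_trans ?_ hkey
  have : Z ^ (-ε) ≤ 1 / 4 * Z ^ (-(4 * η)) := by linarith
  gcongr

end Pool.Agent.W5h28.PH
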