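import Pool.Agent.W5h28.PD.Bil

set_option autoImplicit false

/-! Bilinear exponential sums with a nondegenerate phase over arbitrary separated sets of reals. -/

namespace Pool.Agent.W5h28.PH

open Set MeasureTheory
open Pool.Agent.H469R2.NK (e norm_e e_add conj_e)
open Pool.Agent.W5h28.PD (osc e_continuous e_lip sum_window)

/-- `F` is a phase function of size `T` on the rectangle `[u, u + U] × [v, v + V]`: the mixed
derivative is comparable to `T / (U V)` and the third derivative `F_xxy` is at most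
`C T / (U ^ 2 V)`. -/
def Phase (C T U V u v : ℝ) (F : ℝ → ℝ → ℝ) : Prop :=
  ∃ F₁ F₁₁ F₁₂ F₁₁₂ : ℝ → ℝ → ℝ,
    (∀ x ∈ Icc u (u + U), ∀ y ∈ Icc v (v + V),
      HasDerivAt (fun t => F t y) (F₁ x y) x ∧ HasDerivAt (fun t => F₁ t y) (F₁₁ x y) x ∧
      HasDerivAt (fun t => F₁ x t) (F₁₂ x y) y ∧ HasDerivAt (fun t => F₁₁ x t) (F₁₁₂ x y) y ∧
      T / (C * (U * V)) ≤ |F₁₂ x y| ∧ |F₁₂ x y| ≤ C * T / (U * V) ∧
      |F₁₁₂ x y| ≤ C * T / (U ^ 2 * V)) ∧
    ∀ y ∈ Icc v (v + V), ContinuousOn (fun t => F₁₁ t y) (Icc u (u + U))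

section
variable {C T U V u v : ℝ} {F : ℝ → ℝ → ℝ}

/-- mean value theorem for a difference, in absolute value -/
lemma mvt_abs {g g' : ℝ → ℝ} {a b y y' : ℝ} (hg : ∀ t ∈ Icc a b, HasDerivAt g (g' t) t)
    (hy : y ∈ Icc a b) (hy' : y' ∈ Icc a b) :
    ∃ t ∈ Icc a b, |g y - g y'| = |g' t| * |y - y'| := by
  have key : ∀ y y', y ∈ Icc a b → y' ∈ Icc a b → y' < y →
      ∃ t ∈ Icc a b, |g y - g y'| = |g' t| * |y - y'| := by
    intro y y' hy hy' hlt
    obtain ⟨t, ht, h⟩ := exists_hasDerivAt_eq_slope g g' hlt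
      (fun s hs => (hg s ⟨hy'.1.trans hs.1, hs.2.trans hy.2⟩).continuousAt.continuousWithinAt)
      (fun s hs => hg s ⟨hy'.1.trans hs.1.le, hs.2.le.trans hy.2⟩)
    refine ⟨t, ⟨hy'.1.trans ht.1.le, ht.2.le.trans hy.2⟩, ?_⟩
    rw [h, ← abs_mul, div_mul_cancel₀ _ (by linarith)]
  rcases lt_trichotomy y y' with h | h | h
  · obtain ⟨t, ht, h1⟩ := key y' y hy' hy h
    exact ⟨t, ht, by rw [abs_sub_comm, h1, abs_sub_comm y']⟩
  · exact ⟨y, hy, by rw [h, sub_self, sub_self, abs_zero, mul_zero]⟩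
  · exact key y y' hy hy' h

/-- the difference of the phase at two values of the second variable -/
lemma phase_diff (hF : Phase C T U V u v F) {y y' : ℝ} (hy : y ∈ Icc v (v + V))
    (hy' : y' ∈ Icc v (v + V)) : ∃ D' D'' : ℝ → ℝ,
    (∀ x ∈ Icc u (u + U), HasDerivAt (fun t => F t y - F t y') (D' x) x ∧
      HasDerivAt D' (D'' x) x ∧ T / (C * (U * V)) * |y - y'| ≤ |D' x| ∧
      |D' x| ≤ C * T / (U * V) * |y - y'| ∧ |D'' x| ≤ C * T / (U ^ 2 * V) * |y - y'|) ∧
    ContinuousOn D'' (Icc u (u + U)) := by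
  obtain ⟨F₁, F₁₁, F₁₂, F₁₁₂, h, hc⟩ := hF
  refine ⟨fun x => F₁ x y - F₁ x y', fun x => F₁₁ x y - F₁₁ x y', ?_, (hc y hy).sub (hc y' hy')⟩
  intro x hx
  obtain ⟨t, ht, h1⟩ := mvt_abs (g := fun t => F₁ x t) (g' := fun t => F₁₂ x t)
    (fun t ht => (h x hx t ht).2.2.1) hy hy'
  obtain ⟨s, hs, h2⟩ := mvt_abs (g := fun t => F₁₁ x t) (g' := fun t => F₁₁₂ x t)
    (fun t ht => (h x hx t ht).2.2.2.1) hy hy'
  have h3 := h x hx t ht
  have h4 := h x hx s hs
  refine ⟨(h x hx y hy).1.sub (h x hx y' hy').1, (h x hx y hy).2.1.sub (h x hx y' hy').2.1,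
    ?_, ?_, ?_⟩
  · change _ ≤ |F₁ x y - F₁ x y'|
    rw [h1]
    exact mul_le_mul_of_nonneg_right h3.2.2.2.2.1 (abs_nonneg _)
  · change |F₁ x y - F₁ x y'| ≤ _
    rw [h1]
    exact mul_le_mul_of_nonneg_right h3.2.2.2.2.2.1 (abs_nonneg _)
  · change |F₁₁ x y - F₁₁ x y'| ≤ _
    rw [h2]
    exact mul_le_mul_of_nonneg_right h4.2.2.2.2.2.2 (abs_nonneg _)

/-- the oscillatory integral of a pair -/
noncomputable def J (F : ℝ → ℝ → ℝ) (θ u U y y' : ℝ) : ℂ :=
  ∫ t in u..(u + U), e (θ * (F t y - F t y'))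

lemma J_trivial (hU : 0 ≤ U) (θ y y' : ℝ) : ‖J F θ u U y y'‖ ≤ U := by
  have := intervalIntegral.norm_integral_le_of_norm_le_const (a := u) (b := u + U) (C := 1)
    (f := fun t => e (θ * (F t y - F t y'))) (fun t _ => (norm_e _).le)
  rw [one_mul] at this
  refine this.trans ?_
  rw [add_sub_cancel_left, abs_of_nonneg hU]

lemma J_osc {θ : ℝ} (hC : 1 ≤ C) (hU : 0 < U) (hV : 0 < V) (hT : 0 < T) (hθ : 0 < θ)
    (hF : Phase C T U V u v F) {y y' : ℝ} (hy : y ∈ Icc v (v + V)) (hy' : y' ∈ Icc v (v + V))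
    (hr : 1 ≤ |y - y'|) : ‖J F θ u U y y'‖ ≤ C ^ 3 * (U * V) / (θ * T * |y - y'|) := by
  obtain ⟨D', D'', h, hc⟩ := phase_diff hF hy hy'
  set r := |y - y'| with hrdef
  have hr0 : 0 < r := by linarith
  have hC0 : 0 < C := by linarith
  have h1 := osc (a := u) (b := u + U) (θ := θ) (lam := T / (C * (U * V)) * r)
    (Lam := C * T / (U ^ 2 * V) * r) (by linarith) hθ (by positivity)
    (φ := fun t => F t y - F t y') (φ' := D') (φ'' := D'') (fun t ht => (h t ht).1)
    (fun t ht => (h t ht).2.1) hc (fun t ht => (h t ht).2.2.1) (fun t ht => (h t ht).2.2.2.2)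
  refine h1.trans ?_
  have hpi : 3 < Real.pi := Real.pi_gt_three
  have e1 : 2 / (T / (C * (U * V)) * r) = 2 * C * (U * V) / (T * r) := by
    field_simp
  have e2 : (u + U - u) * (C * T / (U ^ 2 * V) * r) / (T / (C * (U * V)) * r) ^ 2
      = C ^ 3 * (U * V) / (T * r) := by
    field_simp
    ring
  rw [e1, e2, ← add_div, div_div, div_le_div_iff₀ (by positivity) (by positivity)]
  have h3 : 2 * C * (U * V) + C ^ 3 * (U * V) ≤ 3 * (C ^ 3 * (U * V)) := by
    have h4 : C ≤ C ^ 3 := by nlinarith [mul_pos hC0 hC0]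
    have h5 : C * (U * V) ≤ C ^ 3 * (U * V) := by gcongr
    linarith
  calc (2 * C * (U * V) + C ^ 3 * (U * V)) * (θ * T * r)
      ≤ 3 * (C ^ 3 * (U * V)) * (θ * T * r) := by gcongr
    _ = C ^ 3 * (U * V) * (T * r * (3 * θ)) := by ring
    _ ≤ C ^ 3 * (U * V) * (T * r * (2 * Real.pi * θ)) := by
        gcongr
        linarith

/-- the sum of the pair integrals -/
theorem J_sum {θ : ℝ} (hC : 1 ≤ C) (hU : 0 < U) (hV : 0 < V) (hT : 0 < T) (hθ : 0 < θ)
    (hF : Phase C T U V u v F) {B : Finset ℝ} (hB : ∀ y ∈ B, y ∈ Icc v (v + V))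
    (hsep : ∀ y ∈ B, ∀ y' ∈ B, y ≠ y' → 1 ≤ |y - y'|) :
    ∑ y ∈ B, ∑ y' ∈ B, ‖J F θ u U y y'‖
      ≤ B.card * (U + 8 * C ^ 3 * (U * V) * (1 + Real.log (V + 2)) / (θ * T)) := by
  classical
  have h0 : ∀ y ∈ B, ∑ y' ∈ B, ‖J F θ u U y y'‖
      ≤ U + 8 * C ^ 3 * (U * V) * (1 + Real.log (V + 2)) / (θ * T) := by
    intro y hy
    rw [← Finset.add_sum_erase _ _ hy]
    refine add_le_add (J_trivial hU.le _ _ _) ?_
    have hinj : Set.InjOn (fun y : ℝ => ⌊y⌋) (B : Set ℝ) := by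
      intro a ha b hb h
      by_contra hne
      have h1 := hsep a ha b hb hne
      have h2 := Int.abs_sub_lt_one_of_floor_eq_floor h
      linarith
    have h1 : ∀ y' ∈ B.erase y, ‖J F θ u U y y'‖
        ≤ 4 * (C ^ 3 * (U * V) / (θ * T)) * (1 / ((|⌊y⌋ - ⌊y'⌋| : ℤ) + 1)) := by
      intro y' hy'
      have hne := Finset.ne_of_mem_erase hy'
      have hy'B := Finset.mem_of_mem_erase hy'
      have hr := hsep y hy y' hy'B (Ne.symm hne)
      refine (J_osc hC hU hV hT hθ hF (hB y hy) (hB y' hy'B) hr).trans ?_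
      set m : ℝ := ((|⌊y⌋ - ⌊y'⌋| : ℤ) : ℝ) with hm
      have hm0 : 0 ≤ m := by
        rw [hm]
        exact_mod_cast abs_nonneg _
      have hmr : m ≤ |y - y'| + 1 := by
        rw [hm]
        push_cast
        have h1 := Int.floor_le y
        have h2 := Int.lt_floor_add_one y
        have h3 := Int.floor_le y'
        have h4 := Int.lt_floor_add_one y'
        rcases abs_cases (y - y') with ⟨h5, h6⟩ | ⟨h5, h6⟩
        · rw [h5, abs_le]
          constructor <;> linarith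
        · rw [h5, abs_le]
          constructor <;> linarith
      have hr0 : 0 < |y - y'| := by linarith
      rw [mul_one_div, div_le_div_iff₀ (by positivity) (by positivity)]
      have h2 : m + 1 ≤ 4 * |y - y'| := by linarith
      calc C ^ 3 * (U * V) * (m + 1) ≤ C ^ 3 * (U * V) * (4 * |y - y'|) := by gcongr
        _ = 4 * (C ^ 3 * (U * V) / (θ * T)) * (θ * T * |y - y'|) := by
            field_simp
    refine (Finset.sum_le_sum h1).trans ?_
    rw [← Finset.mul_sum]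
    have h2 : ∑ y' ∈ B.erase y, (1 : ℝ) / ((|⌊y⌋ - ⌊y'⌋| : ℤ) + 1)
        = ∑ i ∈ (B.erase y).image (fun y : ℝ => ⌊y⌋), (1 : ℝ) / ((|⌊y⌋ - i| : ℤ) + 1) := by
      rw [Finset.sum_image]
      intro a ha b hb h
      exact hinj (Finset.mem_of_mem_erase ha) (Finset.mem_of_mem_erase hb) h
    rw [h2]
    have h3 := sum_window (⌊V⌋₊ + 1) ⌊y⌋ ((B.erase y).image (fun y : ℝ => ⌊y⌋)) (by
      intro i hi
      obtain ⟨y', hy', rfl⟩ := Finset.mem_image.1 hi
      have h4 := hB y hy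
      have h5 := hB y' (Finset.mem_of_mem_erase hy')
      have h6 : (((|⌊y⌋ - ⌊y'⌋| : ℤ) : ℤ) : ℝ) ≤ V + 1 := by
        push_cast
        have h8 := Int.floor_le y
        have h9 := Int.lt_floor_add_one y
        have h10 := Int.floor_le y'
        have h11 := Int.lt_floor_add_one y'
        rw [abs_le]
        constructor <;> linarith [h4.1, h4.2, h5.1, h5.2]
      have h7 : |⌊y⌋ - ⌊y'⌋| ≤ ⌊V + 1⌋ := Int.le_floor.2 h6
      have h8 : ⌊V + 1⌋ = ((⌊V⌋₊ + 1 : ℕ) : ℤ) := by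
        rw [Int.floor_add_one]
        push_cast
        rw [Int.natCast_floor_eq_floor hV.le]
      rw [h8] at h7
      exact h7)
    have h4 : Real.log (((⌊V⌋₊ + 1 : ℕ) : ℝ) + 1) ≤ Real.log (V + 2) := by
      apply Real.log_le_log (by positivity)
      push_cast
      have := Nat.floor_le hV.le
      linarith
    have hC0 : 0 < C := by linarith
    calc _ ≤ 4 * (C ^ 3 * (U * V) / (θ * T)) * (2 * (1 + Real.log (((⌊V⌋₊ + 1 : ℕ) : ℝ) + 1))) := by
          gcongr
      _ ≤ 4 * (C ^ 3 * (U * V) / (θ * T)) * (2 * (1 + Real.log (V + 2))) := by gcongr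
      _ = _ := by ring
  refine (Finset.sum_le_sum h0).trans ?_
  rw [Finset.sum_const, nsmul_eq_mul]

/-- the inner sum -/
noncomputable def G (F : ℝ → ℝ → ℝ) (θ : ℝ) (c : ℝ → ℂ) (B : Finset ℝ) (t : ℝ) : ℂ :=
  ∑ y ∈ B, c y * e (θ * F t y)

lemma phase_cont (hF : Phase C T U V u v F) {y : ℝ} (hy : y ∈ Icc v (v + V)) :
    ContinuousOn (fun t => F t y) (Icc u (u + U)) := by
  obtain ⟨F₁, F₁₁, F₁₂, F₁₁₂, h, -⟩ := hF
  exact fun x hx => (h x hx y hy).1.continuousAt.continuousWithinAt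

lemma G_contOn (hF : Phase C T U V u v F) {θ : ℝ} {c : ℝ → ℂ} {B : Finset ℝ}
    (hB : ∀ y ∈ B, y ∈ Icc v (v + V)) : ContinuousOn (G F θ c B) (Icc u (u + U)) := by
  unfold G
  refine continuousOn_finsetSum _ fun y hy => continuousOn_const.mul ?_
  exact e_continuous.comp_continuousOn (continuousOn_const.mul (phase_cont hF (hB y hy)))

lemma G_sq (hU : 0 < U) (hF : Phase C T U V u v F) {θ : ℝ} {c : ℝ → ℂ} {B : Finset ℝ}
    (hB : ∀ y ∈ B, y ∈ Icc v (v + V)) (hc : ∀ y ∈ B, ‖c y‖ ≤ 1) :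
    ∫ t in Icc u (u + U), ‖G F θ c B t‖ ^ 2 ≤ ∑ y ∈ B, ∑ y' ∈ B, ‖J F θ u U y y'‖ := by
  have h1 : ((∫ t in Icc u (u + U), ‖G F θ c B t‖ ^ 2 : ℝ) : ℂ)
      = ∑ y ∈ B, ∑ y' ∈ B, c y * (starRingEnd ℂ) (c y') * J F θ u U y y' := by
    rw [← integral_complex_ofReal]
    have h2 : ∀ t, ((‖G F θ c B t‖ ^ 2 : ℝ) : ℂ) = ∑ y ∈ B, ∑ y' ∈ B,
        c y * (starRingEnd ℂ) (c y') * e (θ * (F t y - F t y')) := by
      intro z
      rw [Complex.ofReal_pow, ← Complex.mul_conj']
      unfold G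
      rw [map_sum, Finset.sum_mul_sum]
      refine Finset.sum_congr rfl fun y _ => Finset.sum_congr rfl fun y' _ => ?_
      rw [map_mul, conj_e, mul_sub, sub_eq_add_neg, e_add]
      ring
    simp only [h2]
    have hint : ∀ y ∈ B, ∀ y' ∈ B, IntegrableOn (fun t : ℝ => c y * (starRingEnd ℂ) (c y')
        * e (θ * (F t y - F t y'))) (Icc u (u + U)) volume := by
      intro y hy y' hy'
      have hcont : ContinuousOn (fun t : ℝ => c y * (starRingEnd ℂ) (c y')
        * e (θ * (F t y - F t y'))) (Icc u (u + U)) :=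
        continuousOn_const.mul (e_continuous.comp_continuousOn (continuousOn_const.mul
          ((phase_cont hF (hB y hy)).sub (phase_cont hF (hB y' hy')))))
      exact hcont.integrableOn_compact isCompact_Icc
    rw [integral_finsetSum _ fun y hy => integrable_finsetSum _ fun y' hy' => hint y hy y' hy']
    refine Finset.sum_congr rfl fun y hy => ?_
    rw [integral_finsetSum _ fun y' hy' => hint y hy y' hy']
    refine Finset.sum_congr rfl fun y' _ => ?_
    rw [integral_const_mul]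
    unfold J
    rw [intervalIntegral.integral_of_le (by linarith), ← integral_Icc_eq_integral_Ioc]
  have h3 : 0 ≤ ∫ t in Icc u (u + U), ‖G F θ c B t‖ ^ 2 := by positivity
  have h4 : ∫ t in Icc u (u + U), ‖G F θ c B t‖ ^ 2
      = ‖((∫ t in Icc u (u + U), ‖G F θ c B t‖ ^ 2 : ℝ) : ℂ)‖ := by
    rw [Complex.norm_real, Real.norm_eq_abs, abs_of_nonneg h3]
  rw [h4, h1]
  refine (norm_sum_le _ _).trans (Finset.sum_le_sum fun y hy => (norm_sum_le _ _).trans
    (Finset.sum_le_sum fun y' hy' => ?_))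
  rw [norm_mul, norm_mul, Complex.norm_conj]
  have h5 : ‖c y‖ * ‖c y'‖ ≤ 1 * 1 :=
    mul_le_mul (hc y hy) (hc y' hy') (norm_nonneg _) zero_le_one
  calc ‖c y‖ * ‖c y'‖ * ‖J F θ u U y y'‖ ≤ 1 * 1 * ‖J F θ u U y y'‖ := by gcongr
    _ = _ := by ring

/-- `|G|` changes little over short distances (the part of the phase which does not depend on `y` is
removed). -/
lemma G_lip (hC : 1 ≤ C) (hU : 0 < U) (hV : 0 < V) (hT : 0 < T) (hF : Phase C T U V u v F) {θ δ : ℝ} (hθ : 0 < θ)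
    (hδ : 0 < δ) {c : ℝ → ℂ} {B : Finset ℝ} (hB : ∀ y ∈ B, y ∈ Icc v (v + V))
    (hc : ∀ y ∈ B, ‖c y‖ ≤ 1) {x t : ℝ} (hx : x ∈ Icc u (u + U)) (ht : t ∈ Icc u (u + U))
    (hxt : |x - t| ≤ δ) :
    ‖G F θ c B x‖ ≤ ‖G F θ c B t‖ + 2 * Real.pi * (θ * (C * T / U * δ)) * B.card := by
  have hv : v ∈ Icc v (v + V) := ⟨le_rfl, by linarith⟩
  have hpi := Real.pi_pos
  have hC0 : 0 < C := by linarith
  set s : ℝ := F x v - F t v with hs
  have h1 : ‖G F θ c B x - e (θ * s) * G F θ c B t‖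
      ≤ 2 * Real.pi * (θ * (C * T / U * δ)) * B.card := by
    unfold G
    rw [Finset.mul_sum, ← Finset.sum_sub_distrib]
    have h2 : ∀ y ∈ B, ‖c y * e (θ * F x y) - e (θ * s) * (c y * e (θ * F t y))‖
        ≤ 2 * Real.pi * (θ * (C * T / U * δ)) := by
      intro y hy
      have h3 : c y * e (θ * F x y) - e (θ * s) * (c y * e (θ * F t y))
          = c y * (e (θ * F x y) - e (θ * (s + F t y))) := by
        rw [mul_add, e_add]
        ring
      rw [h3, norm_mul]
      have h4 := e_lip (θ * F x y) (θ * (s + F t y))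
      have h5 : |θ * F x y - θ * (s + F t y)| ≤ θ * (C * T / U * δ) := by
        rw [← mul_sub, abs_mul, abs_of_pos hθ]
        obtain ⟨D', D'', h, -⟩ := phase_diff hF (hB y hy) hv
        obtain ⟨r, hr, h6⟩ := mvt_abs (g := fun t => F t y - F t v) (g' := D')
          (fun t ht => (h t ht).1) hx ht
        have h7 : F x y - (s + F t y) = (F x y - F x v) - (F t y - F t v) := by
          rw [hs]
          ring
        rw [h7]
        have h8 := (h r hr).2.2.2.1
        have h9 : |y - v| ≤ V := by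
          have := hB y hy
          rw [abs_le]
          constructor <;> linarith [this.1, this.2]
        have h10 : |(F x y - F x v) - (F t y - F t v)| ≤ C * T / U * δ := by
          calc _ = |D' r| * |x - t| := h6
            _ ≤ C * T / (U * V) * |y - v| * δ := by gcongr
            _ ≤ C * T / (U * V) * V * δ := by gcongr
            _ = C * T / U * δ := by field_simp
        gcongr
      calc ‖c y‖ * ‖e (θ * F x y) - e (θ * (s + F t y))‖
          ≤ 1 * (2 * Real.pi * (θ * (C * T / U * δ))) := by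
            refine mul_le_mul (hc y hy) (h4.trans ?_) (norm_nonneg _) zero_le_one
            gcongr
        _ = _ := one_mul _
    refine (norm_sum_le_of_le _ h2).trans ?_
    rw [Finset.sum_const, nsmul_eq_mul]
    linarith
  have h2 := norm_sub_norm_le (G F θ c B x) (e (θ * s) * G F θ c B t)
  rw [norm_mul, norm_e, one_mul] at h2
  linarith

/-- **The bilinear bound.** -/
theorem bil (hC : 1 ≤ C) (hU : 1 ≤ U) (hV : 1 ≤ V) (hT : 0 < T) (hF : Phase C T U V u v F) {θ δ τ : ℝ}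
    (hθ : 0 < θ) (hδ : 0 < δ) (hδ1 : δ < 1 / 2) (hτ : 0 < τ) {A B : Finset ℝ}
    (hA : ∀ x ∈ A, x ∈ Icc u (u + U)) (hB : ∀ y ∈ B, y ∈ Icc v (v + V))
    (hsA : ∀ x ∈ A, ∀ x' ∈ A, x ≠ x' → 1 ≤ |x - x'|)
    (hsB : ∀ y ∈ B, ∀ y' ∈ B, y ≠ y' → 1 ≤ |y - y'|) (f g : ℝ → ℝ) :
    ‖∑ x ∈ A, ∑ y ∈ B, e (θ * (F x y + f x + g y))‖
      ≤ A.card * B.card * (τ + 2 * Real.pi * (θ * (C * T / U * δ)))
        + (U + 8 * C ^ 3 * (U * V) * (1 + Real.log (V + 2)) / (θ * T)) / (4 * τ * δ) := by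
  classical
  have hU0 : 0 < U := by linarith
  have hV0 : 0 < V := by linarith
  have hC0 : 0 < C := by linarith
  have hpi := Real.pi_pos
  have hlog : 0 ≤ Real.log (V + 2) := Real.log_nonneg (by linarith)
  set E : ℝ := U + 8 * C ^ 3 * (U * V) * (1 + Real.log (V + 2)) / (θ * T) with hE
  have hE0 : 0 ≤ E := by positivity
  set c : ℝ → ℂ := fun y => e (θ * g y) with hcdef
  have hc : ∀ y ∈ B, ‖c y‖ ≤ 1 := fun y _ => (norm_e _).le
  have e1 : ∀ x ∈ A, ‖∑ y ∈ B, e (θ * (F x y + f x + g y))‖ = ‖G F θ c B x‖ := by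
    intro x _
    have : ∑ y ∈ B, e (θ * (F x y + f x + g y)) = e (θ * f x) * G F θ c B x := by
      unfold G
      rw [Finset.mul_sum]
      refine Finset.sum_congr rfl fun y _ => ?_
      rw [hcdef, ← e_add, ← e_add]
      congr 1
      ring
    rw [this, norm_mul, norm_e, one_mul]
  refine (norm_sum_le _ _).trans ?_
  rw [Finset.sum_congr rfl e1]
  rcases B.eq_empty_or_nonempty with hBe | hBn
  · rw [hBe]
    simp only [G, Finset.sum_empty, norm_zero, Finset.sum_const_zero, Finset.card_empty,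
      Nat.cast_zero, mul_zero, zero_mul, zero_add]
    positivity
  have hBc : (0 : ℝ) < B.card := by
    have := hBn.card_pos
    exact_mod_cast this
  -- small intervals
  set l : ℝ → ℝ := fun x => if x ≤ u + U / 2 then x else x - δ with hl
  set S : ℝ → Set ℝ := fun x => Icc (l x) (l x + δ) with hS
  have hl1 : ∀ x, x - δ ≤ l x ∧ l x ≤ x := by
    intro x
    simp only [hl]
    split_ifs
    · constructor <;> linarith
    · constructor <;> linarith
  have hsub : ∀ x ∈ A, S x ⊆ Icc u (u + U) := by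
    intro x hx t ht
    have h1 := hA x hx
    simp only [hS, hl] at ht
    split_ifs at ht with h
    · exact ⟨h1.1.trans ht.1, by linarith [ht.2]⟩
    · push Not at h
      exact ⟨by linarith [ht.1], by linarith [ht.2, h1.2]⟩
  have hnear : ∀ x, ∀ t ∈ S x, |x - t| ≤ δ := by
    intro x t ht
    obtain ⟨h1, h2⟩ := hl1 x
    rw [abs_le]
    constructor <;> linarith [ht.1, ht.2]
  have hdisj : (A : Set ℝ).Pairwise (Function.onFun Disjoint S) := by
    intro x hx x' hx' hne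
    rw [Function.onFun, Set.disjoint_left]
    intro t ht ht'
    have h1 := hnear x t ht
    have h2 := hnear x' t ht'
    have h3 := hsA x hx x' hx' hne
    have h4 : |x - x'| ≤ |x - t| + |t - x'| := abs_sub_le _ _ _
    rw [abs_sub_comm t x'] at h4
    linarith
  have hGc : ContinuousOn (fun t => ‖G F θ c B t‖ ^ 2) (Icc u (u + U)) :=
    (G_contOn hF hB).norm.pow 2
  have hGi : IntegrableOn (fun t => ‖G F θ c B t‖ ^ 2) (Icc u (u + U)) volume :=
    hGc.integrableOn_compact isCompact_Icc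
  have hI : ∀ x ∈ A, IntegrableOn (fun t => ‖G F θ c B t‖ ^ 2) (S x) volume := fun x hx =>
    hGi.mono_set (hsub x hx)
  have hvol : ∀ x, volume.real (S x) = δ := by
    intro x
    simp only [hS]
    rw [Measure.real, Real.volume_Icc, ENNReal.toReal_ofReal (by linarith)]
    ring
  set w : ℝ := 4 * τ * B.card with hw
  have hw0 : 0 < w := by positivity
  set K : ℝ := τ + 2 * Real.pi * (θ * (C * T / U * δ)) with hK
  have h1 : ∀ x ∈ A, δ * ‖G F θ c B x‖
      ≤ δ * (B.card * K) + w⁻¹ * ∫ t in S x, ‖G F θ c B t‖ ^ 2 := by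
    intro x hx
    have hfin : volume (S x) < ⊤ := by
      simp only [hS]
      rw [Real.volume_Icc]
      exact ENNReal.ofReal_lt_top
    have hmeas : MeasurableSet (S x) := measurableSet_Icc
    have hi0 : IntegrableOn (fun _ : ℝ => (‖G F θ c B x‖ : ℝ)) (S x) volume :=
      integrableOn_const hfin.ne
    have hi1 : IntegrableOn (fun _ : ℝ => (B.card * K : ℝ)) (S x) volume :=
      integrableOn_const hfin.ne
    have h2 : ∫ _t in S x, ‖G F θ c B x‖
        ≤ ∫ t in S x, (B.card * K + w⁻¹ * ‖G F θ c B t‖ ^ 2) := by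
      refine setIntegral_mono_on hi0 (hi1.add ((hI x hx).const_mul _)) hmeas ?_
      intro t ht
      have h5 := G_lip hC hU0 hV0 hT hF hθ hδ hB hc (hA x hx) (hsub x hx ht) (hnear x t ht)
      have h6 : ‖G F θ c B t‖ ≤ τ * B.card + w⁻¹ * ‖G F θ c B t‖ ^ 2 := by
        have h8 : w⁻¹ * (‖G F θ c B t‖ - 2 * τ * B.card) ^ 2
            = w⁻¹ * ‖G F θ c B t‖ ^ 2 - ‖G F θ c B t‖ + τ * B.card := by
          rw [hw]
          field_simp
          ring
        have h9 : 0 ≤ w⁻¹ * (‖G F θ c B t‖ - 2 * τ * B.card) ^ 2 := by positivity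
        linarith
      calc ‖G F θ c B x‖
          ≤ ‖G F θ c B t‖ + 2 * Real.pi * (θ * (C * T / U * δ)) * B.card := h5
        _ ≤ τ * B.card + w⁻¹ * ‖G F θ c B t‖ ^ 2
            + 2 * Real.pi * (θ * (C * T / U * δ)) * B.card := by linarith
        _ = _ := by
            rw [hK]
            ring
    rw [setIntegral_const, hvol, smul_eq_mul] at h2
    refine h2.trans (le_of_eq ?_)
    rw [integral_add hi1 ((hI x hx).const_mul _), setIntegral_const, hvol, smul_eq_mul,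
      integral_const_mul]
  have h2 : ∑ x ∈ A, ∫ t in S x, ‖G F θ c B t‖ ^ 2 ≤ B.card * E := by
    rw [← integral_biUnion_finset A (fun x _ => measurableSet_Icc) hdisj hI]
    refine le_trans (setIntegral_mono_set (t := Icc u (u + U)) hGi ?_ ?_) ?_
    · exact Filter.Eventually.of_forall fun z => by positivity
    · exact (Set.iUnion₂_subset hsub).eventuallyLE
    · refine (G_sq hU0 hF hB hc).trans ?_
      exact J_sum hC hU0 hV0 hT hθ hF hB hsB
  have h3 : δ * ∑ x ∈ A, ‖G F θ c B x‖ ≤ δ * (A.card * B.card * K) + w⁻¹ * (B.card * E) := by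
    rw [Finset.mul_sum]
    refine (Finset.sum_le_sum h1).trans ?_
    rw [Finset.sum_add_distrib, Finset.sum_const, nsmul_eq_mul, ← Finset.mul_sum]
    have h4 : w⁻¹ * ∑ x ∈ A, ∫ t in S x, ‖G F θ c B t‖ ^ 2 ≤ w⁻¹ * (B.card * E) := by gcongr
    have h5 : (A.card : ℝ) * (δ * (B.card * K)) = δ * (A.card * B.card * K) := by ring
    linarith
  have h4 : w⁻¹ * (B.card * E) = δ * (E / (4 * τ * δ)) := by
    rw [hw]
    field_simp
  rw [h4, ← mul_add] at h3
  exact le_of_mul_le_mul_left h3 hδ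

end

end Pool.Agent.W5h28.PH
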